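import Mathlib

namespace Pool.Agent.H.MP_be97d8_mp

open Filter Topology Set
open scoped InnerProductSpace

lemma core (u g : ℕ → ℝ) (G : ℝ) (hG : 3 / 5 ≤ G) (hg : ∀ n, 3 / 5 ≤ g n)
    (hs : Summable fun n => |g n - G|) (hu : ∀ n, u (n + 1) = g (n + 1) * (u n + u (n + 2)))
    (h0 : Tendsto u atTop (𝓝 0)) (N : ℕ) : u N = 0 := by
  obtain ⟨h, hh⟩ : ∃ h, h = G⁻¹ := ⟨_, rfl⟩
  have h1 : 0 < h := by rw [hh]; positivity
  have h2 : h ≤ 5 / 3 := by rw [hh, inv_le_comm₀ (by linarith) (by norm_num)]; linarith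
  let Q : ℕ → ℝ := fun n => u (n + 1) ^ 2 - h * u (n + 1) * u n + u n ^ 2
  have Q1 : ∀ n, u (n + 1) ^ 2 + u n ^ 2 ≤ 6 * Q n := fun n => by
    simp only [Q]
    nlinarith [sq_nonneg (u (n + 1) - u n), sq_nonneg (u (n + 1) + u n),
      mul_nonneg h1.le (sq_nonneg (u (n + 1) - u n)),
      mul_nonneg (sub_nonneg.2 h2) (add_nonneg (sq_nonneg (u n)) (sq_nonneg (u (n + 1))))]
  have Q0 : ∀ n, 0 ≤ Q n := fun n => by nlinarith [Q1 n, sq_nonneg (u n), sq_nonneg (u (n + 1))]
  have st : ∀ n, Q n ≤ Q (n + 1) * Real.exp (54 * |g (n + 1) - G|) := by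
    intro n
    have g0 : 0 < g (n + 1) := by linarith [hg (n + 1)]
    obtain ⟨k, hk⟩ : ∃ k, k = (g (n + 1))⁻¹ := ⟨_, rfl⟩
    have k1 : 0 < k := by rw [hk]; positivity
    have k2 : k ≤ 5 / 3 := by
      rw [hk, inv_le_comm₀ g0 (by norm_num)]; linarith [hg (n + 1)]
    have e1 : u n = k * u (n + 1) - u (n + 2) := by rw [hu n, hk]; field_simp; ring
    have e2 : |k - h| ≤ 3 * |g (n + 1) - G| := by
      have : k - h = -(k * h) * (g (n + 1) - G) := by rw [hk, hh]; field_simp; ring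
      rw [this, abs_mul, abs_neg, abs_of_pos (mul_pos k1 h1)]
      exact mul_le_mul_of_nonneg_right (by nlinarith) (abs_nonneg _)
    have e3 : Q n = Q (n + 1) - (k - h) * (u (n + 1) * (2 * u (n + 2) - k * u (n + 1))) := by
      simp only [Q]
      rw [e1]; ring
    have e4 : |u (n + 1) * (2 * u (n + 2) - k * u (n + 1))| ≤ 18 * Q (n + 1) := by
      have := Q1 (n + 1)
      rw [abs_le]
      constructor <;> nlinarith [sq_nonneg (u (n + 1) - u (n + 2)), sq_nonneg (u (n + 1) + u (n + 2)),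
        mul_nonneg k1.le (sq_nonneg (u (n + 1))), mul_nonneg (sub_nonneg.2 k2) (sq_nonneg (u (n + 1))),
        sq_nonneg (u (n + 1)), sq_nonneg (u (n + 2))]
    have e5 := neg_abs_le ((k - h) * (u (n + 1) * (2 * u (n + 2) - k * u (n + 1))))
    rw [abs_mul] at e5
    have e6 := mul_le_mul e2 e4 (abs_nonneg _) (by positivity)
    have e7 := mul_le_mul_of_nonneg_left (Real.add_one_le_exp (54 * |g (n + 1) - G|)) (Q0 (n + 1))
    linarith
  have it : ∀ m, Q N ≤ Q (N + m) * Real.exp (54 * ∑ i ∈ Finset.range (N + m + 1), |g i - G|) := by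
    intro m
    induction m with
    | zero => exact le_mul_of_one_le_right (Q0 N) (Real.one_le_exp (by positivity))
    | succ m ih =>
      refine ih.trans ?_
      rw [← add_assoc, Finset.sum_range_succ _ (N + m + 1), mul_add, add_comm (54 * _),
        Real.exp_add, ← mul_assoc]
      exact mul_le_mul_of_nonneg_right (st _) (Real.exp_pos _).le
  have lim : Tendsto (fun m => Q (N + m) * Real.exp (54 * ∑' i, |g i - G|)) atTop (𝓝 0) := by
    have a1 : Tendsto (fun m => u (N + m)) atTop (𝓝 0) :=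
      h0.comp (tendsto_atTop_mono (fun m => Nat.le_add_left m N) tendsto_id)
    have a2 : Tendsto (fun m => u (N + m + 1)) atTop (𝓝 0) := a1.comp (tendsto_add_atTop_nat 1)
    simpa using (((a2.pow 2).sub ((a2.const_mul h).mul a1)).add (a1.pow 2)).mul_const
      (Real.exp (54 * ∑' i, |g i - G|))
  have : Q N ≤ 0 := ge_of_tendsto' lim fun m => (it m).trans
    (mul_le_mul_of_nonneg_left (Real.exp_le_exp.2 (mul_le_mul_of_nonneg_left
      (hs.sum_le_tsum _ fun _ _ => abs_nonneg _) (by norm_num))) (Q0 _))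
  nlinarith [Q1 N, sq_nonneg (u (N + 1)), sq_nonneg (u N)]

variable {E : Type} [NormedAddCommGroup E] [InnerProductSpace ℂ E] [CompleteSpace E]

lemma iso {e : ℕ → E} (he : Orthonormal ℂ e) :
    ∃ J : lp (fun _ : ℕ => ℂ) 2 →L[ℂ] E, (∀ c φ, HasSum (fun n => c n * ⟪φ, e n⟫_ℂ) ⟪φ, J c⟫_ℂ) ∧
      ∀ ψ n, ContinuousLinearMap.adjoint J ψ n = ⟪e n, ψ⟫_ℂ := by
  refine ⟨he.orthogonalFamily.linearIsometry.toContinuousLinearMap, fun c φ => ?_, fun ψ n => ?_⟩
  · simpa using (he.orthogonalFamily.hasSum_linearIsometry c).mapL (innerSL ℂ φ)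
  · have := lp.inner_single_left (𝕜 := ℂ) n (1 : ℂ) (ContinuousLinearMap.adjoint
      he.orthogonalFamily.linearIsometry.toContinuousLinearMap ψ)
    rw [ContinuousLinearMap.adjoint_inner_right] at this
    simpa [OrthogonalFamily.linearIsometry_apply_single] using this.symm

lemma shift {e : ℕ → E} (he : Orthonormal ℂ e) :
    ∃ A : E →L[ℂ] E, IsSelfAdjoint A ∧ ∀ φ ψ, HasSum (fun n => ⟪e (n + 1), ψ⟫_ℂ * ⟪φ, e n⟫_ℂ +
      ⟪e n, ψ⟫_ℂ * ⟪φ, e (n + 1)⟫_ℂ) ⟪φ, A ψ⟫_ℂ := by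
  obtain ⟨J, a1, a2⟩ := iso he
  obtain ⟨K, b1, b2⟩ := iso (he.comp _ (add_left_injective 1))
  refine ⟨J ∘L ContinuousLinearMap.adjoint K + K ∘L ContinuousLinearMap.adjoint J, ?_,
    fun φ ψ => ?_⟩
  · rw [ContinuousLinearMap.isSelfAdjoint_iff']
    simp [ContinuousLinearMap.adjoint_comp, add_comm]
  · have := (a1 (ContinuousLinearMap.adjoint K ψ) φ).add (b1 (ContinuousLinearMap.adjoint J ψ) φ)
    simpa [a2, b2, inner_add_right] using this

lemma notpp (T : E →L[ℂ] E) (hT : IsSelfAdjoint T) (c r : ℝ) (hr : 0 < r)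
    (hc : c ∈ spectrum ℝ T)
    (hn : ∀ (x : ℝ) (φ : E), |x - c| ≤ r → T φ = (x : ℂ) • φ → φ = 0) :
    ∃ ψ : E, (∀ f : ℝ → ℝ, Continuous f → (∀ x ∈ Icc (c - r) (c + r), f x = 0) → cfc f T ψ = 0) ∧
      ψ ∉ (⨆ z : ℂ, Module.End.eigenspace (T : Module.End ℂ E) z).topologicalClosure := by
  let f : ℝ → ℝ := fun x => max 0 (r - |x - c|)
  have cf : Continuous f := by fun_prop
  have f0 : ∀ x, x ∉ Icc (c - r) (c + r) → f x = 0 := fun x hx => max_eq_left (by
    by_contra hc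
    exact hx ⟨by linarith [(abs_lt.1 (sub_pos.1 (not_le.1 hc))).1],
      by linarith [(abs_lt.1 (sub_pos.1 (not_le.1 hc))).2]⟩)
  have ne : cfc f T ≠ 0 := by
    intro h
    have := eqOn_of_cfc_eq_cfc (f := f) (g := fun _ => 0) (a := T) (by rw [h, cfc_const_zero]) 
      cf.continuousOn continuousOn_const hT hc
    simp [f] at this
    linarith
  obtain ⟨χ, hχ⟩ := ContinuousLinearMap.exists_ne_zero ne
  refine ⟨cfc f T χ, fun k ck hk => ?_, fun h => hχ ?_⟩
  · have : (fun x => k x * f x) = fun _ => 0 := by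
      funext x
      by_cases hx : x ∈ Icc (c - r) (c + r)
      · rw [hk x hx, zero_mul]
      · rw [f0 x hx, mul_zero]
    rw [← ContinuousLinearMap.mul_apply, ← cfc_mul k f T ck.continuousOn cf.continuousOn, this,
      cfc_const_zero]
    rfl
  rw [← Submodule.orthogonal_orthogonal_eq_closure] at h
  refine inner_self_eq_zero.1 (h _ ?_)
  rw [← Submodule.iInf_orthogonal]
  refine (Submodule.mem_iInf _).2 fun z φ hφ => ?_
  by_cases h0 : φ = 0
  · simp [h0]
  have hz : T φ = z • φ := Module.End.mem_eigenspace_iff.1 hφ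
  have re : (z.re : ℂ) = z := Complex.conj_eq_iff_re.1
    (hT.isSymmetric.conj_eigenvalue_eq_self (Module.End.hasEigenvalue_of_hasEigenvector ⟨hφ, h0⟩))
  rw [← re] at hz
  have far : r < |z.re - c| := not_le.1 fun hle => h0 (hn _ φ hle hz)
  let k : ℝ → ℝ := fun x => f x / (max (c - r) (min x (c + r)) - z.re)
  have ck : Continuous k := by
    refine cf.div (by fun_prop) fun x hx => ?_
    have a1 : c - r ≤ z.re := by rw [← sub_eq_zero.1 hx]; exact le_max_left _ _
    have a2 : z.re ≤ c + r := by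
      rw [← sub_eq_zero.1 hx]; exact max_le (by linarith) (min_le_right _ _)
    exact absurd (abs_le.2 ⟨by linarith, by linarith⟩) (not_le.2 far)
  have e : f = fun x => (x - z.re) * k x := by
    funext x
    by_cases hx : x ∈ Icc (c - r) (c + r)
    · have : x - z.re ≠ 0 := by
        intro h
        rw [← sub_eq_zero.1 h] at far
        exact absurd (abs_le.2 ⟨by linarith [hx.1], by linarith [hx.2]⟩) (not_le.2 far)
      simp only [k]
      rw [min_eq_left hx.2, max_eq_right hx.1, mul_div_cancel₀ _ this]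
    · simp [k, f0 x hx]
  rw [e, cfc_mul _ k T (by fun_prop) ck.continuousOn, cfc_sub _ _ T, cfc_id' ℝ T, cfc_const _ T,
    ContinuousLinearMap.mul_apply, ContinuousLinearMap.sub_apply, inner_sub_right,
    ← hT.isSymmetric.apply_clm, hz, inner_smul_left, Algebra.algebraMap_eq_smul_one]
  simp [inner_smul_right_eq_smul]

end Pool.Agent.H.MP_be97d8_mp
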