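import Mathlib
import Pool.Agent.H.MP_be97d8_mp.A

namespace Pool.Agent.H.MP_be97d8_mp

open Filter Topology Set
open scoped InnerProductSpace

abbrev Vx (s : ℕ → ℕ) : Type := Σ n : ℕ, Fin (s n)

abbrev Hs (s : ℕ → ℕ) : Type := lp (fun _ : Vx s => ℂ) 2

variable {s : ℕ → ℕ}

noncomputable def cc (s : ℕ → ℕ) (n : ℕ) : ℂ := ((√(s n))⁻¹ : ℝ)

noncomputable def ee (s : ℕ → ℕ) (n : ℕ) : Hs s := ∑ j : Fin (s n), lp.single 2 ⟨n, j⟩ (cc s n)

lemma ee_inner (n : ℕ) (ψ : Hs s) : ⟪ee s n, ψ⟫_ℂ = cc s n * ∑ j, ψ ⟨n, j⟩ := by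
  simp [ee, sum_inner, lp.inner_single_left, cc, Finset.mul_sum, mul_comm]

lemma ee_apply (n : ℕ) (x : Vx s) : ee s n x = if n = x.1 then cc s n else 0 := by
  obtain ⟨m, i⟩ := x
  rw [ee, lp.coeFn_sum, Finset.sum_apply]
  split_ifs with h
  · subst h
    rw [Finset.sum_eq_single i]
    · simp
    · intro j _ hj
      rw [lp.single_apply_ne]
      intro e
      exact hj (eq_of_heq (Sigma.mk.inj e).2).symm
    · simp
  · refine Finset.sum_eq_zero fun j _ => ?_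
    rw [lp.single_apply_ne]
    intro e
    exact h (Sigma.mk.inj e).1.symm

lemma cc_sq (hs : ∀ n, 0 < s n) (n : ℕ) : cc s n * cc s n = ((s n : ℝ)⁻¹ : ℝ) := by
  rw [cc, ← Complex.ofReal_mul, ← mul_inv, Real.mul_self_sqrt (Nat.cast_nonneg _)]

lemma ee_on (hs : ∀ n, 0 < s n) : Orthonormal ℂ (ee s) := by
  rw [orthonormal_iff_ite]
  intro n m
  rw [ee_inner]
  simp only [ee_apply]
  split_ifs with h1 h2 h2
  · subst h1
    have : (s m : ℂ) ≠ 0 := by exact_mod_cast (hs m).ne'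
    rw [Finset.sum_const, Finset.card_univ, Fintype.card_fin, nsmul_eq_mul, mul_left_comm,
      cc_sq hs]
    simp [this]
  · exact absurd h1.symm h2
  · exact absurd h2.symm h1
  · simp

lemma coord (ψ : Hs s) (x : Vx s) : ⟪lp.single 2 x (1 : ℂ), ψ⟫_ℂ = ψ x := by
  simp [lp.inner_single_left]

lemma exT (hs : ∀ n, 0 < s n) (w : Vx s → ℝ) (K : ℝ) (hw : ∀ x, |w x| ≤ K) :
    ∃ T : Hs s →L[ℂ] Hs s, IsSelfAdjoint T ∧ ∀ (ψ : Hs s) (x : Vx s), T ψ x =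
      cc s x.1 * (⟪ee s (x.1 + 1), ψ⟫_ℂ + if x.1 = 0 then 0 else ⟪ee s (x.1 - 1), ψ⟫_ℂ) +
        w x * ψ x := by
  obtain ⟨A, hA, hA'⟩ := shift (ee_on hs)
  have hK : 0 ≤ K := (abs_nonneg _).trans (hw ⟨0, ⟨0, hs 0⟩⟩)
  let M : Hs s →L[ℂ] Hs s := lp.mapCLM 2 (fun x => (w x : ℂ) • ContinuousLinearMap.id ℂ ℂ) hK
    fun x => by simpa [norm_smul] using hw x
  have hM : ∀ (ψ : Hs s) x, M ψ x = w x * ψ x := fun ψ x => rfl
  refine ⟨A + M, hA.add ?_, fun ψ x => ?_⟩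
  · rw [ContinuousLinearMap.isSelfAdjoint_iff_isSymmetric]
    intro φ ψ
    simp only [ContinuousLinearMap.coe_coe, lp.inner_eq_tsum, hM]
    refine tsum_congr fun x => ?_
    simp
    ring
  · rw [ContinuousLinearMap.add_apply, lp.coeFn_add, Pi.add_apply, hM, ← coord (A ψ)]
    congr 1
    refine (hA' _ ψ).unique ?_
    simp only [coord, ee_apply]
    have h1 : HasSum (fun n => ⟪ee s (n + 1), ψ⟫_ℂ * if n = x.1 then cc s n else 0)
        (cc s x.1 * ⟪ee s (x.1 + 1), ψ⟫_ℂ) := by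
      have := hasSum_single (f := fun n => ⟪ee s (n + 1), ψ⟫_ℂ * if n = x.1 then cc s n else 0)
        x.1 fun n hn => by simp [hn]
      simpa [mul_comm] using this
    have h2 : HasSum (fun n => ⟪ee s n, ψ⟫_ℂ * if n + 1 = x.1 then cc s (n + 1) else 0)
        (cc s x.1 * if x.1 = 0 then 0 else ⟪ee s (x.1 - 1), ψ⟫_ℂ) := by
      have := hasSum_single (f := fun n => ⟪ee s n, ψ⟫_ℂ * if n + 1 = x.1 then cc s (n + 1) else 0)
        (x.1 - 1) fun n hn => by rw [if_neg (by omega), mul_zero]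
      by_cases h0 : x.1 = 0
      · simpa [h0] using this
      · have e : x.1 - 1 + 1 = x.1 := by omega
        simpa [h0, e, mul_comm] using this
    rw [mul_add]
    exact h1.add h2

lemma key (hs : ∀ n, 0 < s n) (w : Vx s → ℝ) (T : Hs s →L[ℂ] Hs s)
    (hT : ∀ (ψ : Hs s) (x : Vx s), T ψ x =
      cc s x.1 * (⟪ee s (x.1 + 1), ψ⟫_ℂ + if x.1 = 0 then 0 else ⟪ee s (x.1 - 1), ψ⟫_ℂ) +
        w x * ψ x) (E G : ℝ) (hE : ∀ x, E - w x ≠ 0) (hG : 3 / 5 ≤ G)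
    (hg : ∀ n, 3 / 5 ≤ (s n : ℝ)⁻¹ * ∑ i, (E - w ⟨n, i⟩)⁻¹)
    (hsum : Summable fun n => |(s n : ℝ)⁻¹ * ∑ i, (E - w ⟨n, i⟩)⁻¹ - G|)
    (φ : Hs s) (κ : ℂ) (h : T φ = (E : ℂ) • φ + κ • ee s 0) : κ = 0 ∧ φ = 0 := by
  let u : ℕ → ℂ := fun n => ⟪ee s n, φ⟫_ℂ
  let z : ℕ → ℂ := fun n => u (n + 1) + if n = 0 then -κ else u (n - 1)
  have h1 : ∀ x : Vx s, φ x = cc s x.1 * z x.1 * ((E - w x)⁻¹ : ℝ) := by
    intro x
    have a := hT φ x
    rw [h, lp.coeFn_add, Pi.add_apply, lp.coeFn_smul, lp.coeFn_smul, Pi.smul_apply,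
      Pi.smul_apply, ee_apply, smul_eq_mul, smul_eq_mul] at a
    have b : ((E : ℂ) - w x) ≠ 0 := by exact_mod_cast hE x
    push_cast
    rw [← div_eq_mul_inv, eq_div_iff b]
    simp only [z, u]
    by_cases h0 : x.1 = 0
    · rw [if_pos h0, if_pos h0.symm, ← h0] at a
      rw [if_pos h0]
      linear_combination a
    · rw [if_neg h0, if_neg (Ne.symm h0)] at a
      rw [if_neg h0]
      linear_combination a
  have h2 : ∀ n, u n = (((s n : ℝ)⁻¹ * ∑ i, (E - w ⟨n, i⟩)⁻¹ : ℝ) : ℂ) * z n := by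
    intro n
    show ⟪ee s n, φ⟫_ℂ = _
    rw [ee_inner, Complex.ofReal_mul, ← cc_sq hs, Complex.ofReal_sum, Finset.sum_congr rfl
      fun j _ => h1 ⟨n, j⟩]
    dsimp only
    rw [← Finset.mul_sum]
    ring
  have h3 : Tendsto u atTop (𝓝 0) := by
    have := ((ee_on hs).inner_products_summable φ).tendsto_atTop_zero.sqrt
    rw [tendsto_zero_iff_norm_tendsto_zero]
    simpa using this
  have h4 : ∀ n, u n = 0 := fun n => by
    apply Complex.ext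
    · refine core (fun n => (u n).re) _ G hG hg hsum (fun n => ?_)
        ((Complex.continuous_re.tendsto 0).comp h3) n
      rw [h2 (n + 1), Complex.re_ofReal_mul, show z (n + 1) = u (n + 2) + u n from rfl,
        Complex.add_re, add_comm (u n).re]
    · refine core (fun n => (u n).im) _ G hG hg hsum (fun n => ?_)
        ((Complex.continuous_im.tendsto 0).comp h3) n
      rw [h2 (n + 1), Complex.im_ofReal_mul, show z (n + 1) = u (n + 2) + u n from rfl,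
        Complex.add_im, add_comm (u n).im]
  have h5 : κ = 0 := by
    have a := h2 0
    have b : (((s 0 : ℝ)⁻¹ * ∑ i, (E - w ⟨0, i⟩)⁻¹ : ℝ) : ℂ) ≠ 0 := by
      exact_mod_cast (by linarith [hg 0] : (s 0 : ℝ)⁻¹ * ∑ i, (E - w ⟨0, i⟩)⁻¹ ≠ 0)
    rw [h4 0] at a
    simpa [z, h4] using (mul_eq_zero.1 a.symm).resolve_left b
  refine ⟨h5, lp.ext (funext fun x => ?_)⟩
  rw [h1 x]
  simp [z, h4, h5]

lemma interp {E l t : ℝ} (ht : t = -1 ∨ t = 0 ∨ t = 1) :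
    (E - l * t)⁻¹ = E⁻¹ + ((E - l)⁻¹ - (E + l)⁻¹) / 2 * t +
      (((E - l)⁻¹ + (E + l)⁻¹) / 2 - E⁻¹) * t ^ 2 := by
  rcases ht with rfl | rfl | rfl <;> simp <;> ring

lemma gbound (hs : ∀ n, 0 < s n) (v : Vx s → ℝ) (hv : ∀ x, v x = -1 ∨ v x = 0 ∨ v x = 1)
    {E l : ℝ} (h1 : 1 / 4 ≤ E) (h2 : E ≤ 1 / 2) (hl : 4 ≤ l) (n : ℕ) {δ : ℝ}
    (m1 : |∑ i, v ⟨n, i⟩| ≤ s n * δ) (m2 : |∑ i, v ⟨n, i⟩ ^ 2 - s n * (1 / 2)| ≤ s n * δ) :
    |(s n : ℝ)⁻¹ * ∑ i, (E - l * v ⟨n, i⟩)⁻¹ - (E⁻¹ / 2 + ((E - l)⁻¹ + (E + l)⁻¹) / 4)| ≤ 5 * δ ∧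
      9 / 10 ≤ E⁻¹ / 2 + ((E - l)⁻¹ + (E + l)⁻¹) / 4 := by
  have s0 : (0 : ℝ) < s n := by exact_mod_cast hs n
  have a1 : 2 ≤ E⁻¹ := by rw [le_inv_comm₀ (by norm_num) (by linarith)]; linarith
  have a2 : E⁻¹ ≤ 4 := by rw [inv_le_comm₀ (by linarith) (by norm_num)]; linarith
  have a3 : (l - E)⁻¹ ≤ 2 / 7 := by rw [inv_le_comm₀ (by linarith) (by norm_num)]; linarith
  have a4 : 0 < (l - E)⁻¹ := inv_pos.2 (by linarith)
  have a5 : (E + l)⁻¹ ≤ 1 / 4 := by rw [inv_le_comm₀ (by linarith) (by norm_num)]; linarith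
  have a6 : 0 < (E + l)⁻¹ := inv_pos.2 (by linarith)
  have a7 : (E - l)⁻¹ = -(l - E)⁻¹ := by rw [← inv_neg, neg_sub]
  refine ⟨?_, by linarith⟩
  obtain ⟨β, hβ⟩ : ∃ β, β = ((E - l)⁻¹ - (E + l)⁻¹) / 2 := ⟨_, rfl⟩
  obtain ⟨γ, hγ⟩ : ∃ γ, γ = ((E - l)⁻¹ + (E + l)⁻¹) / 2 - E⁻¹ := ⟨_, rfl⟩
  have e : (s n : ℝ)⁻¹ * ∑ i, (E - l * v ⟨n, i⟩)⁻¹ - (E⁻¹ / 2 + ((E - l)⁻¹ + (E + l)⁻¹) / 4) =
      (s n : ℝ)⁻¹ * (β * ∑ i, v ⟨n, i⟩ + γ * (∑ i, v ⟨n, i⟩ ^ 2 - s n * (1 / 2))) := by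
    rw [Finset.sum_congr rfl fun i _ => interp (hv ⟨n, i⟩), ← hβ, ← hγ, Finset.sum_add_distrib,
      Finset.sum_add_distrib, ← Finset.mul_sum, ← Finset.mul_sum, Finset.sum_const,
      Finset.card_univ, Fintype.card_fin, nsmul_eq_mul, show ((E - l)⁻¹ + (E + l)⁻¹) / 4 =
        (γ + E⁻¹) / 2 by rw [hγ]; ring]
    field_simp
    ring
  have b1 : |β| ≤ 1 / 2 := abs_le.2 ⟨by linarith, by linarith⟩
  have b2 : |γ| ≤ 9 / 2 := abs_le.2 ⟨by linarith, by linarith⟩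
  rw [e, abs_mul, abs_of_pos (inv_pos.2 s0), inv_mul_le_iff₀ s0]
  refine (abs_add_le _ _).trans ?_
  rw [abs_mul, abs_mul]
  linarith [mul_le_mul b1 m1 (abs_nonneg _) (by norm_num),
    mul_le_mul b2 m2 (abs_nonneg _) (by norm_num)]

open MeasureTheory ProbabilityTheory in
lemma cheb (P : Measure ℝ) [IsProbabilityMeasure P] (f : ℝ → ℝ) (hf : Measurable f)
    (hb : ∀ᵐ x ∂P, f x ∈ Icc (-1 : ℝ) 1) (n : ℕ) (hs : 0 < s n) {δ : ℝ} (hδ : 0 < δ) :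
    Measure.infinitePi (fun _ : Vx s => P)
      {v | s n * δ ≤ |∑ i, f (v ⟨n, i⟩) - s n * ∫ x, f x ∂P|} ≤
      ENNReal.ofReal (1 / (s n * δ ^ 2)) := by
  have s0 : (0 : ℝ) < s n := by exact_mod_cast hs
  have mp := fun x : Vx s => measurePreserving_eval_infinitePi (fun _ : Vx s => P) x
  have hi := iIndepFun_infinitePi (P := fun _ : Vx s => P) (X := fun _ => f) fun _ => hf
  have mf : MemLp f 2 P := memLp_of_bounded hb hf.aestronglyMeasurable 2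
  have ml : ∀ x : Vx s, MemLp (fun v : Vx s → ℝ => f (v x)) 2
      (Measure.infinitePi fun _ : Vx s => P) := fun x => mf.comp_measurePreserving (mp x)
  have h1 := meas_ge_le_variance_div_sq (memLp_finsetSum' Finset.univ
    fun (i : Fin (s n)) _ => ml ⟨n, i⟩) (mul_pos s0 hδ)
  have h2 := IndepFun.variance_sum (s := Finset.univ) (fun (i : Fin (s n)) _ => ml ⟨n, i⟩)
    fun i _ j _ hij => hi.indepFun fun e => hij (eq_of_heq (Sigma.mk.inj e).2)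
  have h3 : ∀ x : Vx s, Var[fun v : Vx s → ℝ => f (v x); Measure.infinitePi fun _ : Vx s => P]
      ≤ 1 := fun x => by
    have := variance_le_sq_of_bounded (X := fun v : Vx s → ℝ => f (v x))
      ((mp x).quasiMeasurePreserving.ae hb) (ml x).aemeasurable
    linarith
  have h4 : ∀ x : Vx s, ∫ v, f (v x) ∂(Measure.infinitePi fun _ : Vx s => P) = ∫ x, f x ∂P :=
    fun x => by
      rw [← (mp x).map_eq, integral_map (mp x).aemeasurable hf.aestronglyMeasurable, (mp x).map_eq]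
  simp only [Finset.sum_apply] at h1
  rw [integral_finsetSum _ fun i _ => (ml ⟨n, i⟩).integrable one_le_two, h2] at h1
  simp only [h4, Finset.sum_const, Finset.card_univ, Fintype.card_fin, nsmul_eq_mul] at h1
  refine h1.trans (ENNReal.ofReal_le_ofReal ?_)
  have h5 := Finset.sum_le_sum fun (i : Fin (s n)) (_ : i ∈ Finset.univ) => h3 ⟨n, i⟩
  simp only [Finset.sum_const, Finset.card_univ, Fintype.card_fin, nsmul_eq_mul, mul_one] at h5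
  refine (div_le_div_of_nonneg_right h5 (by positivity)).trans (le_of_eq ?_)
  field_simp

end Pool.Agent.H.MP_be97d8_mp
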